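import Pool.Agent.Helper62.BM.LStm
import Pool.Agent.Helper4.BM.A12
import Pool.Agent.Helper90.BM.FewK

/-!
# `L_FewK` from `L_FewG` (after helper90's `fewK`)
-/

set_option autoImplicit false

open Polynomial Matrix Finset NumberField IsDedekindDomain

namespace Pool.Agent.Helper4.BL

open Pool.Agent.Helper62.BM Pool.Agent.Helper90.BM Pool.Agent.Helper4.BM

theorem Yh_eval {k : Type} [Field k] (p g : ℕ) (F : k[X]) (s : k) (hp : 0 < p) (i j : Fin g) :
    hasseWitt p g (F - C s) i j = (Yh p g (2 * g) (ft F) i (lo j)).eval s := by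
  rw [hasseWitt_eq p hp]
  unfold Yh ft
  rw [Matrix.of_apply]
  have h : ∀ (q : k[X][X]) (n : ℕ), (q.coeff n).eval s = (q.map (evalRingHom s)).coeff n := by
    intro q n
    rw [coeff_map]; rfl
  rw [h]
  have h1 : (F.map (Polynomial.C : k →+* k[X])).map (evalRingHom s) = F := by
    rw [Polynomial.map_map]
    have : (evalRingHom s).comp (Polynomial.C : k →+* k[X]) = RingHom.id k := by
      ext x
      simp
    rw [this, Polynomial.map_id]
  simp only [Polynomial.map_mul, Polynomial.map_pow, Polynomial.map_sub, Polynomial.map_X,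
    Polynomial.map_C, coe_evalRingHom, eval_X, lo, h1]

/-- `L_FewK` from `L_FewG`. -/
theorem l_FewK (hG : L_FewG) : L_FewK := by
  classical
  intro K _ _ g hg f φ hf hsep hcrit hφ G hG0 ε hε
  have hf0 : f ≠ 0 := by
    intro h
    rw [h, natDegree_zero] at hf
    omega
  have hdf : (derivative f).natDegree = 2 * g := by
    rw [natDegree_derivative, hf]
    rfl
  have hdf0 : derivative f ≠ 0 := by
    intro h
    rw [h, natDegree_zero] at hdf
    omega
  obtain ⟨A, a, hFG, hainj, hfact⟩ := roots g (derivative f) hdf hsep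
  have hval : Function.Injective (A.val : A →+* AlgebraicClosure K) := Subtype.val_injective
  have halg : ∀ x : 𝓞 K, ((algebraMap (𝓞 K) A x : A) : AlgebraicClosure K) =
      algebraMap K (AlgebraicClosure K) (algebraMap (𝓞 K) K x) := fun x => rfl
  have h1 : Function.Injective (algebraMap (𝓞 K) A) := by
    intro x y hxy
    have h2 := congrArg (fun z : A => (z : AlgebraicClosure K)) hxy
    simp only [halg] at h2
    exact (IsFractionRing.injective (𝓞 K) K) ((algebraMap K (AlgebraicClosure K)).injective h2)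
  have h2 : Algebra.FiniteType (𝓞 K) A := (Subalgebra.fg_iff_finiteType A).mp hFG
  have h3 : Algebra.IsAlgebraic (𝓞 K) A := by
    have h4 : Algebra.IsAlgebraic (𝓞 K) (AlgebraicClosure K) :=
      (IsFractionRing.comap_isAlgebraic_iff (A := 𝓞 K) (K := K) (C := AlgebraicClosure K)).mpr
        inferInstance
    refine ⟨fun x => ?_⟩
    exact (isAlgebraic_algHom_iff A.val Subtype.val_injective).mp
      (h4.isAlgebraic (x : AlgebraicClosure K))
  have hCZ : CharZero A := charZero_of_injective_algebraMap h1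
  have hc0 : f.leadingCoeff ≠ 0 := leadingCoeff_ne_zero.2 hf0
  have hdc0 : (derivative f).leadingCoeff ≠ 0 := leadingCoeff_ne_zero.2 hdf0
  have hφ0 : φ ≠ 0 := by
    intro h
    rw [h, natDegree_zero] at hφ
    omega
  have hl0 : φ.leadingCoeff ≠ 0 := leadingCoeff_ne_zero.2 hφ0
  have hGA0 : MvPolynomial.map (mapRingHom (algebraMap (𝓞 K) A)) G ≠ 0 := by
    intro h
    apply hG0
    apply MvPolynomial.map_injective (mapRingHom (algebraMap (𝓞 K) A)) (map_injective _ h1)
    rw [h, map_zero]
  obtain ⟨H, hH0, hH⟩ := A2 A g _ hGA0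
  set d := φ.natDegree with hd
  have hdpos : (0 : ℝ) < d := by exact_mod_cast hφ
  have hcA : algebraMap (𝓞 K) A f.leadingCoeff ≠ 0 := by
    intro h
    exact hc0 (h1 (by rw [h, map_zero]))
  have hdcA : algebraMap (𝓞 K) A (derivative f).leadingCoeff ≠ 0 := by
    intro h
    exact hdc0 (h1 (by rw [h, map_zero]))
  have haev : ∀ (q : (𝓞 K)[X]) (x : A),
      aeval (x : AlgebraicClosure K) q = (((q.map (algebraMap (𝓞 K) A)).eval x : A) :
        AlgebraicClosure K) := by
    intro q x
    rw [eval_map, ← aeval_def]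
    exact (Polynomial.aeval_algHom_apply A.val x q)
  have hroot : ∀ j, aeval ((a j : A) : AlgebraicClosure K) (derivative f) = 0 := by
    intro j
    rw [haev, hfact, eval_mul, eval_prod, Finset.prod_eq_zero (Finset.mem_univ j) (by simp),
      mul_zero]
    rfl
  have hCr : Crit g (f.map (algebraMap (𝓞 K) A)) (algebraMap (𝓞 K) A (derivative f).leadingCoeff)
      a := by
    refine ⟨?_, ?_, hainj, ?_⟩
    · rw [natDegree_map_eq_of_injective h1, hf]
    · rw [derivative_map, hfact]
    · intro i j hij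
      apply hainj
      apply Subtype.ext
      apply hcrit _ _ (hroot i) (hroot j)
      rw [haev, haev]
      exact congrArg (fun z : A => (z : AlgebraicClosure K)) hij
  obtain ⟨p₀, a₀, ha₀, hfew⟩ := hG g hg A _ _ a hCr H hH0 (ε / (2 * d)) (by positivity)
  set b : A := a₀ * algebraMap (𝓞 K) A f.leadingCoeff *
    algebraMap (𝓞 K) A (derivative f).leadingCoeff with hb
  have hb0 : b ≠ 0 := mul_ne_zero (mul_ne_zero ha₀ hcA) hdcA
  have hfin := spread (𝓞 K) A h1 h2 h3 b hb0
  obtain ⟨N, hN⟩ := exists_nat_gt (4 * g * d / ε : ℝ)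
  have h20 : (2 : 𝓞 K) ≠ 0 := two_ne_zero
  refine ((((hfin.union (finite_mem (K := K) φ.leadingCoeff hl0)).union
    (finite_mem (K := K) 2 h20)).union (finite_le (K := K) p₀)).union
    (finite_le (K := K) N)).subset ?_
  rintro v ⟨hv, hv'⟩
  by_contra hno
  simp only [Set.mem_union, Set.mem_ofPred_eq, not_or, not_not, not_le] at hno
  obtain ⟨⟨⟨⟨⟨k, hk, χ, hχ, hker⟩, hlv⟩, h2v⟩, hp0⟩, hpN⟩ := hno
  rw [lt_iff_not_ge] at hv'
  apply hv'
  set p := Ideal.absNorm v.asIdeal with hp
  have hFp : Fact p.Prime := ⟨hv⟩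
  have hcharκ := charP_res v hv
  rw [← hp] at hcharκ
  have hchar : CharP k p := by
    rw [CharP.charP_iff_prime_eq_zero hv]
    have h5 : (p : 𝓞 K) ∈ v.asIdeal := Ideal.absNorm_mem v.asIdeal
    rw [← hker, RingHom.mem_ker, map_natCast] at h5
    exact h5
  have hunits : v.asIdeal.primeCompl ≤
      Submonoid.comap (χ.comp (algebraMap (𝓞 K) A)) (IsUnit.submonoid k) := fun z hz => by
    refine IsUnit.mk0 _ fun h0 => hz ?_
    rw [← hker]
    exact h0
  set κ := v.asIdeal.ResidueField with hκ
  set ι' : κ →+* k := Ideal.ResidueField.lift v.asIdeal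
    (χ.comp (algebraMap (𝓞 K) A)) hker.ge hunits with hι
  have hcomp : ι'.comp (algebraMap (𝓞 K) κ) = χ.comp (algebraMap (𝓞 K) A) := by
    ext z
    exact Ideal.ResidueField.lift_algebraMap v.asIdeal (χ.comp (algebraMap (𝓞 K) A)) hker.ge
      hunits z
  have hcn := card_res v
  rw [← hp] at hcn
  have hfinite : Finite κ := Nat.finite_of_card_ne_zero (by rw [hcn]; exact hv.ne_zero)
  have : Fintype κ := Fintype.ofFinite _
  rw [Nat.card_eq_fintype_card] at hcn
  have hpow : ∀ t : κ, t ^ p = t := fun t => by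
    rw [← hcn]
    exact FiniteField.pow_card t
  -- consequences of `χ b ≠ 0`
  have hχ1 : χ a₀ ≠ 0 := fun h => hχ (by rw [hb, map_mul, map_mul, h, zero_mul, zero_mul])
  have hχ2 : χ (algebraMap (𝓞 K) A f.leadingCoeff) ≠ 0 := fun h =>
    hχ (by rw [hb, map_mul, map_mul, h, mul_zero, zero_mul])
  have hχ3 : χ (algebraMap (𝓞 K) A (derivative f).leadingCoeff) ≠ 0 := fun h =>
    hχ (by rw [hb, map_mul, h, mul_zero])
  have hcι : χ (algebraMap (𝓞 K) A f.leadingCoeff) =
    ι' (algebraMap (𝓞 K) κ f.leadingCoeff) := (RingHom.congr_fun hcomp _).symm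
  set fκ : κ[X] := f.map (algebraMap (𝓞 K) κ) with hfκ
  set fk : k[X] := (f.map (algebraMap (𝓞 K) A)).map χ with hfk
  have hfkk : fκ.map ι' = fk := by
    rw [hfκ, Polynomial.map_map, hcomp, ← Polynomial.map_map]
  have hlc : algebraMap (𝓞 K) κ f.leadingCoeff ≠ 0 := by
    intro h
    apply hχ2
    rw [hcι, h, map_zero]
  have hfdeg : fκ.natDegree = 2 * g + 1 := by
    rw [hfκ, natDegree_map_of_leadingCoeff_ne_zero _ hlc, hf]
  have hdfk : derivative fk = C (χ (algebraMap (𝓞 K) A (derivative f).leadingCoeff)) *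
      ∏ j, (X - C (χ (a j))) := by
    rw [hfk, derivative_map, derivative_map, hfact, Polynomial.map_mul, Polynomial.map_C,
      Polynomial.map_prod]
    simp only [Polynomial.map_sub, Polynomial.map_X, Polynomial.map_C]
  -- the bad members
  set r : ℕ → κ := fun t => algebraMap (𝓞 K) κ (φ.eval (t : 𝓞 K)) with hr
  obtain ⟨Z1, hZ1⟩ : ∃ Z1 : Finset κ, Z1 =
    univ.filter (fun s => ∃ j, fk.eval (χ (a j)) = ι' s) := ⟨_, rfl⟩
  obtain ⟨Z2, hZ2⟩ : ∃ Z2 : Finset κ, Z2 =
    univ.filter (fun s => MvPolynomial.eval₂ ((evalRingHom (ι' s)).comp (mapRingHom χ))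
      (fun u : Fin g × Fin g => (Yh p g (2 * g) (ft fk) u.1 (lo u.2)).eval (ι' s)) H = 0) :=
    ⟨_, rfl⟩
  set Z : Finset κ := Z1 ∪ Z2 with hZ
  have hZcard : (Z.card : ℝ) ≤ 2 * g + ε / (2 * d) * p := by
    have e1 : Z1.card ≤ 2 * g := by
      have e2 : Z1.image ι' ⊆ (univ : Finset (Fin (2 * g))).image fun j => fk.eval (χ (a j)) := by
        intro s hs
        obtain ⟨s', hs', rfl⟩ := Finset.mem_image.1 hs
        rw [hZ1, Finset.mem_filter] at hs'
        obtain ⟨j, hj⟩ := hs'.2
        exact Finset.mem_image.2 ⟨j, Finset.mem_univ _, hj⟩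
      rw [← Finset.card_image_of_injective _ ι'.injective]
      refine (Finset.card_le_card e2).trans (Finset.card_image_le.trans ?_)
      rw [Finset.card_univ, Fintype.card_fin]
    have e3 := hfew p k χ hp0.le hχ1 (Z2.image ι') (by
        intro t ht
        obtain ⟨s, hs, rfl⟩ := Finset.mem_image.1 ht
        rw [hZ2, Finset.mem_filter] at hs
        exact ⟨by rw [← map_pow, hpow], hs.2⟩)
    rw [Finset.card_image_of_injective _ ι'.injective] at e3
    have e4 : (Z.card : ℝ) ≤ (Z1.card : ℝ) + Z2.card := by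
      exact_mod_cast Finset.card_union_le _ _
    refine e4.trans (add_le_add ?_ e3)
    exact_mod_cast e1
  have hbad : ∀ t : ℕ, ¬ (GoodOrd g (2 * g + 1) (membf f φ t) v ∧
      Avoids g G (φ.eval (t : 𝓞 K)) (membf f φ t) v) → r t ∈ Z := by
    intro t ht
    by_contra hcon
    apply ht
    rw [hZ, Finset.mem_union, hZ1, hZ2, Finset.mem_filter, Finset.mem_filter, not_or, not_and,
      not_and] at hcon
    have hc1 : ¬ ∃ j, fk.eval (χ (a j)) = ι' (r t) := hcon.1 (Finset.mem_univ _)
    have hc2 := hcon.2 (Finset.mem_univ _)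
    have hrd : rd v (membf f φ t) = fκ - C (r t) := by
      unfold rd membf
      rw [Polynomial.map_sub, Polynomial.map_C]
    have hrk : (rd v (membf f φ t)).map ι' = fk - C (ι' (r t)) := by
      rw [hrd, Polynomial.map_sub, Polynomial.map_C, hfkk]
    -- the Hasse-Witt matrix
    have hW : ∀ i j : Fin g, ι' (hasseWitt p g (rd v (membf f φ t)) i j) =
        (Yh p g (2 * g) (ft fk) i (lo j)).eval (ι' (r t)) := by
      intro i j
      rw [hasseWitt_map, hrk, Yh_eval p g fk _ hv.pos]
    have hnot := fun h => hc2 (hH k ((evalRingHom (ι' (r t))).comp (mapRingHom χ))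
      (fun u : Fin g × Fin g => (Yh p g (2 * g) (ft fk) u.1 (lo u.2)).eval (ι' (r t))) h)
    rw [imp_false, not_or, not_or] at hnot
    obtain ⟨hn1, hn2, -⟩ := hnot
    refine ⟨⟨h2v, ?_, ?_, ?_⟩, ?_⟩
    · rw [hrd, natDegree_sub_C, hfdeg]
    · rw [← Polynomial.separable_map ι', hrk]
      unfold Polynomial.Separable
      rw [derivative_sub, derivative_C, sub_zero, hdfk]
      rw [isCoprime_mul_unit_left_right (isUnit_C.2 (isUnit_iff_ne_zero.2 hχ3))]
      refine IsCoprime.prod_right fun j _ => ?_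
      refine IsCoprime.symm ?_
      rw [(irreducible_X_sub_C (χ (a j))).coprime_iff_not_dvd, dvd_iff_isRoot, IsRoot.def,
        eval_sub, eval_C, sub_eq_zero]
      exact fun h => hc1 ⟨j, h⟩
    · intro hdet
      apply hn1
      have hdet' : ι' ((hasseWitt p g (rd v (membf f φ t))).det) = 0 := by
        rw [hdet, map_zero]
      rw [RingHom.map_det] at hdet'
      rw [← hdet']
      congr 1
      ext i j
      rw [Matrix.of_apply, RingHom.mapMatrix_apply, Matrix.map_apply, hW]
    · intro hav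
      have h5 : ∀ W : Fin g × Fin g → k,
          MvPolynomial.eval₂ ((evalRingHom (ι' (r t))).comp (mapRingHom χ)) W
            (MvPolynomial.map (mapRingHom (algebraMap (𝓞 K) A)) G) =
          MvPolynomial.eval₂ (ι'.comp ((algebraMap (𝓞 K) κ).comp
            (evalRingHom (φ.eval (t : 𝓞 K))))) W G := by
        intro W
        rw [MvPolynomial.eval₂_map]
        congr 1
        refine Polynomial.ringHom_ext (fun x => ?_) ?_
        · simp only [RingHom.comp_apply, coe_mapRingHom, map_C, coe_evalRingHom, eval_C]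
          exact (RingHom.congr_fun hcomp x).symm
        · simp only [RingHom.comp_apply, coe_mapRingHom, map_X, coe_evalRingHom, eval_X]
          rfl
      have h6 := congrArg ι' hav
      rw [map_zero, MvPolynomial.eval₂_comp_left] at h6
      apply hn2
      rw [h5, ← h6]
      congr 1
      funext u
      exact (hW u.1 u.2).symm
  have hfib : ∀ s : κ, (((range p).filter fun t : ℕ => ¬ (GoodOrd g (2 * g + 1) (membf f φ t) v ∧
      Avoids g G (φ.eval (t : 𝓞 K)) (membf f φ t) v)).filter (fun t => r t = s)).card ≤ d := by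
    intro s
    have hlκ : algebraMap (𝓞 K) κ φ.leadingCoeff ≠ 0 := by
      rw [Ne, Ideal.algebraMap_residueField_eq_zero]
      exact hlv
    have hdegφ : (φ.map (algebraMap (𝓞 K) κ)).natDegree = d :=
      natDegree_map_of_leadingCoeff_ne_zero _ hlκ
    have hne : φ.map (algebraMap (𝓞 K) κ) - C s ≠ 0 := by
      intro h
      rw [sub_eq_zero] at h
      rw [h, natDegree_C] at hdegφ
      omega
    have hdeg2 : (φ.map (algebraMap (𝓞 K) κ) - C s).natDegree ≤ d := by
      rw [natDegree_sub_C, hdegφ]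
    have hinjOn : Set.InjOn (fun t : ℕ => (t : κ)) (range p : Set ℕ) := by
      intro x hx y hy hxy
      rw [Finset.coe_range, Set.mem_Iio] at hx hy
      have := (CharP.natCast_eq_natCast κ p).1 hxy
      rw [Nat.ModEq, Nat.mod_eq_of_lt hx, Nat.mod_eq_of_lt hy] at this
      exact this
    have hsub : (((range p).filter fun t : ℕ => ¬ (GoodOrd g (2 * g + 1) (membf f φ t) v ∧
      Avoids g G (φ.eval (t : 𝓞 K)) (membf f φ t) v)).filter (fun t => r t = s)).image
        (fun t : ℕ => (t : κ)) ⊆ (φ.map (algebraMap (𝓞 K) κ) - C s).roots.toFinset := by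
      intro x hx
      obtain ⟨t, ht, rfl⟩ := Finset.mem_image.1 hx
      have hts := (Finset.mem_filter.1 ht).2
      rw [Multiset.mem_toFinset, mem_roots hne, IsRoot.def, eval_sub, eval_C, sub_eq_zero,
        ← hts, hr]
      simp only
      rw [← Polynomial.eval₂_at_apply, Polynomial.eval₂_eq_eval_map, map_natCast]
    calc _ = ((((range p).filter fun t : ℕ => ¬ (GoodOrd g (2 * g + 1) (membf f φ t) v ∧
      Avoids g G (φ.eval (t : 𝓞 K)) (membf f φ t) v)).filter (fun t => r t = s)).image
        (fun t : ℕ => (t : κ))).card := by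
          rw [Finset.card_image_of_injOn]
          refine hinjOn.mono ?_
          intro t ht
          exact Finset.mem_coe.2 (Finset.mem_filter.1 (Finset.mem_filter.1
            (Finset.mem_coe.1 ht)).1).1
      _ ≤ (φ.map (algebraMap (𝓞 K) κ) - C s).roots.toFinset.card := Finset.card_le_card hsub
      _ ≤ (φ.map (algebraMap (𝓞 K) κ) - C s).roots.card := Multiset.toFinset_card_le _
      _ ≤ (φ.map (algebraMap (𝓞 K) κ) - C s).natDegree := card_roots' _
      _ ≤ d := hdeg2
  have hcount : ((range p).filter fun t : ℕ => ¬ (GoodOrd g (2 * g + 1) (membf f φ t) v ∧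
      Avoids g G (φ.eval (t : 𝓞 K)) (membf f φ t) v)).card ≤ d * Z.card := by
    refine (Finset.card_le_mul_card_image (f := r) _ d (fun s _ => hfib s)).trans ?_
    refine Nat.mul_le_mul_left _ (Finset.card_le_card ?_)
    intro s hs
    obtain ⟨t, ht, rfl⟩ := Finset.mem_image.1 hs
    exact hbad t (Finset.mem_filter.1 ht).2
  have hcount' : ((((range p).filter fun t : ℕ => ¬ (GoodOrd g (2 * g + 1) (membf f φ t) v ∧
      Avoids g G (φ.eval (t : 𝓞 K)) (membf f φ t) v)).card : ℕ) : ℝ) ≤ d * Z.card := by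
    exact_mod_cast hcount
  refine hcount'.trans ?_
  have hpN' : (N : ℝ) < p := by exact_mod_cast hpN
  have h6 : 4 * g * d / ε < p := hN.trans hpN'
  rw [div_lt_iff₀ hε] at h6
  calc (d : ℝ) * Z.card ≤ d * (2 * g + ε / (2 * d) * p) :=
        mul_le_mul_of_nonneg_left hZcard hdpos.le
    _ = 2 * g * d + ε * p / 2 := by field_simp
    _ ≤ ε * p := by linarith

end Pool.Agent.Helper4.BL
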